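import Pool.Agent.H99.NR.Stm

/-! Crew NR, part ROW2: the tail of the row sum for large `s`. -/

set_option autoImplicit false
set_option maxHeartbeats 1000000

open MeasureTheory ProbabilityTheory

noncomputable section

open Classical

namespace Pool.Agent.H99.NR.Row2

open Pool.Agent.H99.NR

lemma abs_sm_le (β a : ℝ) (hβ : 0 ≤ β) : |sm β a| ≤ β := by
  unfold sm
  split_ifs with h
  · exact h
  · simpa using hβ

lemma measurable_sm (β : ℝ) : Measurable (sm β) := by
  unfold sm
  exact Measurable.ite (measurableSet_le (by fun_prop) measurable_const) measurable_id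
    measurable_const

lemma abs_sub_sm_le (β a : ℝ) (hβ : 0 < β) : |a - sm β a| ≤ a ^ 2 / β := by
  unfold sm
  split_ifs with h
  · simp only [sub_self, abs_zero]
    positivity
  · push Not at h
    rw [sub_zero, le_div_iff₀ hβ, ← sq_abs a, sq]
    exact mul_le_mul_of_nonneg_left h.le (abs_nonneg a)

lemma sm_sq_le (β a : ℝ) : sm β a ^ 2 ≤ a ^ 2 := by
  unfold sm
  split_ifs with h
  · exact le_rfl
  · simpa using sq_nonneg a

lemma integrable_id_sq {K : ℝ} {n : ℕ} {ν : Measure ℝ} (hν : Law K n ν) :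
    Integrable (fun a : ℝ => a ^ 2) ν := by
  by_contra h
  have := hν.var
  rw [integral_undef h] at this
  exact zero_ne_one this

lemma integrable_id {K : ℝ} {n : ℕ} {ν : Measure ℝ} (hν : Law K n ν) :
    Integrable (fun a : ℝ => a) ν := by
  have := hν.prob
  refine Integrable.mono' (g := fun a => a ^ 2 + 1) ((integrable_id_sq hν).add
    (integrable_const _)) (by fun_prop) (Filter.Eventually.of_forall fun a => ?_)
  rw [Real.norm_eq_abs]
  nlinarith [abs_nonneg a, sq_abs a, sq_nonneg (|a| - 1)]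

lemma integrable_sm {K : ℝ} {n : ℕ} {ν : Measure ℝ} (hν : Law K n ν) {β : ℝ} (hβ : 0 ≤ β) :
    Integrable (fun a : ℝ => sm β a) ν := by
  have := hν.prob
  exact Integrable.mono' (g := fun _ => β) (integrable_const _)
    (measurable_sm β).aestronglyMeasurable
    (Filter.Eventually.of_forall fun a => by rw [Real.norm_eq_abs]; exact abs_sm_le β a hβ)

/-- The mean of the small part. -/
lemma abs_mean_sm_le {K : ℝ} {n : ℕ} {ν : Measure ℝ} (hν : Law K n ν) {β : ℝ} (hβ : 0 < β) :
    |∫ a, sm β a ∂ν| ≤ 1 / β := by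
  have := hν.prob
  have h1 : ∫ a, sm β a ∂ν = - ∫ a, (a - sm β a) ∂ν := by
    rw [integral_sub (integrable_id hν) (integrable_sm hν hβ.le), hν.mean]
    ring
  rw [h1, abs_neg]
  calc |∫ a, (a - sm β a) ∂ν| ≤ ∫ a, |a - sm β a| ∂ν := abs_integral_le_integral_abs
    _ ≤ ∫ a, a ^ 2 / β ∂ν := by
        refine integral_mono ?_ ((integrable_id_sq hν).div_const β) (fun a => abs_sub_sm_le β a hβ)
        exact ((integrable_id hν).sub (integrable_sm hν hβ.le)).abs
    _ = 1 / β := by rw [integral_div, hν.var]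

lemma abs_mean_sm_le' {K : ℝ} {n : ℕ} {ν : Measure ℝ} (hν : Law K n ν) {β : ℝ} (hβ : 0 ≤ β) :
    |∫ a, sm β a ∂ν| ≤ β := by
  have := hν.prob
  calc |∫ a, sm β a ∂ν| ≤ ∫ a, |sm β a| ∂ν := abs_integral_le_integral_abs
    _ ≤ ∫ _, β ∂ν := by
        exact integral_mono (integrable_sm hν hβ).abs (integrable_const _)
          (fun a => abs_sm_le β a hβ)
    _ = β := by simp

lemma exists_level {K : ℝ} {n : ℕ} {a : ℝ} (h1 : |a| ≤ K * √n) (h0 : 0 < |a|) :
    ∃ k, inLev K n k a := by
  have hx : 1 ≤ K * √n / |a| := by rwa [le_div_iff₀ h0, one_mul]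
  obtain ⟨k, hk1, hk2⟩ := exists_nat_pow_near hx (y := 2) (by norm_num)
  refine ⟨k, ?_, ?_⟩
  · rw [div_lt_iff₀ (by positivity)]
    rw [div_lt_iff₀ h0] at hk2
    linarith
  · rw [le_div_iff₀ (by positivity)]
    rw [le_div_iff₀ h0] at hk1
    linarith

lemma level_ge {K : ℝ} {n k κ : ℕ} {a : ℝ} (hKn : 0 < K * √n) (h : inLev K n k a)
    (ha : |a| ≤ K * √n / 2 ^ κ) : κ ≤ k := by
  have h1 := h.1.trans_le ha
  rw [div_lt_div_iff_of_pos_left hKn (by positivity) (by positivity)] at h1
  have h2 := (pow_lt_pow_iff_right₀ (by norm_num : (1 : ℝ) < 2)).1 h1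
  omega

lemma level_lt {K : ℝ} {n k κ : ℕ} {a : ℝ} (hKn : 0 < K * √n) (h : inLev K n k a)
    (ha : K * √n / 2 ^ κ < |a|) : k < κ := by
  have h1 := ha.trans_le h.2
  rw [div_lt_div_iff_of_pos_left hKn (by positivity) (by positivity)] at h1
  exact (pow_lt_pow_iff_right₀ (by norm_num : (1 : ℝ) < 2)).1 h1

lemma level_sum (κ : ℕ) (L : ℝ) (hL : 0 ≤ L) :
    ∑ k ∈ Finset.range κ, ((2 : ℝ) ^ k + L / 2 ^ k) ≤ 2 ^ κ + 2 * L := by
  induction κ with
  | zero => simp; linarith
  | succ m ih =>
    have key : ∀ m : ℕ, ∑ k ∈ Finset.range m, ((2 : ℝ) ^ k + L / 2 ^ k) =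
        2 ^ m - 1 + 2 * L * (1 - 1 / 2 ^ m) := by
      intro m
      induction m with
      | zero => simp
      | succ m ih =>
        rw [Finset.sum_range_succ, ih, pow_succ]
        field_simp
        ring
    rw [key]
    have : 0 ≤ 1 / (2 : ℝ) ^ (m + 1) := by positivity
    nlinarith

/-- The count of the good entries of level `k`. -/
lemma good_count (K L : ℝ) (n k : ℕ) (r : Fin n → ℝ) (hL : 0 ≤ L) :
    (((Finset.univ.filter fun j => inLev K n k (r j) ∧ ¬ bad K L n k r).card : ℕ) : ℝ) ≤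
      600 * (4 ^ k + L) := by
  by_cases hb : bad K L n k r
  · simp only [hb, not_true_eq_false, and_false, Finset.filter_false, Finset.card_empty,
      Nat.cast_zero]
    positivity
  · simp only [hb, not_false_eq_true, and_true]
    unfold bad cnt at hb
    push Not at hb
    exact hb

/-- Deterministic comparison. -/
lemma det {K L : ℝ} {n κ κ' : ℕ} {r : Fin n → ℝ} (hKn : 0 < K * √n) (hL : 0 ≤ L) (hκ : κ ≤ κ')
    (hg : ¬ ∃ k, κ' ≤ k ∧ bad K L n k r) (x : Fin n → SignType) (u u' : ℝ) :
    |Yr K L n (K * √n / 2 ^ κ) u x r| ≤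
      |∑ j, (x j : ℝ) * (sm (K * √n / 2 ^ κ') (r j) - u')| +
        600 * (K * √n) * (2 ^ κ' + 2 * L) + (|u| + |u'|) * sz x := by
  set β := K * √n / 2 ^ κ with hβ
  set β' := K * √n / 2 ^ κ' with hβ'
  have hββ : β' ≤ β := by
    rw [hβ, hβ']
    exact div_le_div_of_nonneg_left hKn.le (by positivity)
      (pow_le_pow_right₀ (by norm_num) hκ)
  have hβK : β ≤ K * √n := by
    rw [hβ]
    exact div_le_self hKn.le (one_le_pow₀ (by norm_num))
  set t : Fin n → ℝ := fun j => if j ∈ exc K L n r then 0 else sm β (r j) with ht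
  have hd : ∀ j, |t j - sm β' (r j)| ≤ ∑ k ∈ Finset.range κ',
      (if inLev K n k (r j) ∧ ¬ bad K L n k r then K * √n / 2 ^ k else 0) := by
    intro j
    have hnn : 0 ≤ ∑ k ∈ Finset.range κ',
      (if inLev K n k (r j) ∧ ¬ bad K L n k r then K * √n / 2 ^ k else 0) :=
      Finset.sum_nonneg fun k _ => by split_ifs <;> positivity
    by_cases h1 : |r j| ≤ β'
    · have h2 : t j = sm β' (r j) := by
        have h3 : sm β' (r j) = r j := by unfold sm; rw [if_pos h1]
        have h4 : sm β (r j) = r j := by unfold sm; rw [if_pos (h1.trans hββ)]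
        have h5 : j ∉ exc K L n r := by
          intro h6
          simp only [exc, Finset.mem_filter, Finset.mem_univ, true_and] at h6
          obtain ⟨k, hk1, hk2⟩ := h6
          exact hg ⟨k, level_ge hKn hk1 h1, hk2⟩
        rw [ht]
        simp only [h5, if_false, h3, h4]
      rw [h2, sub_self, abs_zero]
      exact hnn
    · push Not at h1
      have h3 : sm β' (r j) = 0 := by unfold sm; rw [if_neg (not_le.2 h1)]
      rw [h3, sub_zero]
      by_cases h5 : j ∈ exc K L n r
      · rw [ht]; simp only [h5, if_true, abs_zero]; exact hnn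
      · by_cases h6 : |r j| ≤ β
        · have h7 : t j = r j := by
            rw [ht]; simp only [h5, if_false]; unfold sm; rw [if_pos h6]
          have hpos : 0 < |r j| := lt_of_le_of_lt (by positivity) h1
          obtain ⟨k, hk⟩ := exists_level (h6.trans hβK) hpos
          have hkκ : k < κ' := level_lt hKn hk h1
          have hnb : ¬ bad K L n k r := by
            intro hb
            apply h5
            simp only [exc, Finset.mem_filter, Finset.mem_univ, true_and]
            exact ⟨k, hk, hb⟩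
          rw [h7]
          calc |r j| ≤ K * √n / 2 ^ k := hk.2
            _ = (if inLev K n k (r j) ∧ ¬ bad K L n k r then K * √n / 2 ^ k else 0) := by
                rw [if_pos ⟨hk, hnb⟩]
            _ ≤ _ := Finset.single_le_sum
                (f := fun k => if inLev K n k (r j) ∧ ¬ bad K L n k r then K * √n / 2 ^ k else 0)
                (fun k _ => by split_ifs <;> positivity) (Finset.mem_range.2 hkκ)
        · have h7 : t j = 0 := by
            rw [ht]; simp only [h5, if_false]; unfold sm; rw [if_neg h6]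
          rw [h7, abs_zero]
          exact hnn
  have hxabs : ∀ j, |((x j : SignType) : ℝ)| ≤ 1 := by
    intro j
    rcases x j with _ | _ | _ <;> simp
  have hxsum : |∑ j, ((x j : SignType) : ℝ)| ≤ sz x := by
    refine (Finset.abs_sum_le_sum_abs _ _).trans ?_
    unfold sz
    rw [Finset.card_filter]
    push_cast
    refine Finset.sum_le_sum fun j _ => ?_
    by_cases h : x j = 0
    · simp [h]
    · rw [if_pos h]; exact hxabs j
  have hsum : |∑ j, (x j : ℝ) * (t j - sm β' (r j))| ≤ 600 * (K * √n) * (2 ^ κ' + 2 * L) := by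
    calc |∑ j, (x j : ℝ) * (t j - sm β' (r j))|
        ≤ ∑ j, |(x j : ℝ) * (t j - sm β' (r j))| := Finset.abs_sum_le_sum_abs _ _
      _ ≤ ∑ j, ∑ k ∈ Finset.range κ',
          (if inLev K n k (r j) ∧ ¬ bad K L n k r then K * √n / 2 ^ k else 0) := by
          refine Finset.sum_le_sum fun j _ => ?_
          rw [abs_mul]
          calc |((x j : SignType) : ℝ)| * |t j - sm β' (r j)| ≤ 1 * |t j - sm β' (r j)| :=
                mul_le_mul_of_nonneg_right (hxabs j) (abs_nonneg _)
            _ ≤ _ := by rw [one_mul]; exact hd j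
      _ = ∑ k ∈ Finset.range κ', ((Finset.univ.filter fun j =>
            inLev K n k (r j) ∧ ¬ bad K L n k r).card : ℝ) * (K * √n / 2 ^ k) := by
          rw [Finset.sum_comm]
          refine Finset.sum_congr rfl fun k _ => ?_
          rw [← Finset.sum_filter, Finset.sum_const, nsmul_eq_mul]
      _ ≤ ∑ k ∈ Finset.range κ', (600 * (4 ^ k + L)) * (K * √n / 2 ^ k) := by
          refine Finset.sum_le_sum fun k _ => ?_
          exact mul_le_mul_of_nonneg_right (good_count K L n k r hL) (by positivity)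
      _ = 600 * (K * √n) * ∑ k ∈ Finset.range κ', ((2 : ℝ) ^ k + L / 2 ^ k) := by
          rw [Finset.mul_sum]
          refine Finset.sum_congr rfl fun k _ => ?_
          have : (4 : ℝ) ^ k = 2 ^ k * 2 ^ k := by rw [← mul_pow]; norm_num
          rw [this]
          field_simp
      _ ≤ _ := mul_le_mul_of_nonneg_left (level_sum κ' L hL) (by positivity)
  have hY : Yr K L n β u x r = ∑ j, (x j : ℝ) * (sm β' (r j) - u') +
      ∑ j, (x j : ℝ) * (t j - sm β' (r j)) + (u' - u) * ∑ j, (x j : ℝ) := by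
    unfold Yr
    rw [Finset.mul_sum, ← Finset.sum_add_distrib, ← Finset.sum_add_distrib]
    refine Finset.sum_congr rfl fun j _ => ?_
    rw [ht]
    ring
  rw [hY]
  have h1 : |(u' - u) * ∑ j, (x j : ℝ)| ≤ (|u| + |u'|) * sz x := by
    rw [abs_mul]
    refine mul_le_mul ?_ hxsum (abs_nonneg _) (by positivity)
    calc |u' - u| ≤ |u'| + |u| := abs_sub _ _
      _ = |u| + |u'| := add_comm _ _
  calc _ ≤ |∑ j, (x j : ℝ) * (sm β' (r j) - u')| + |∑ j, (x j : ℝ) * (t j - sm β' (r j))| +
        |(u' - u) * ∑ j, (x j : ℝ)| := by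
        refine (abs_add_le _ _).trans ?_
        exact add_le_add_left (abs_add_le _ _) _
    _ ≤ _ := by linarith


lemma one_le_sz {n : ℕ} {ε : ℝ} (hn : 1 ≤ n) (hε : 0 < ε) {x : Fin n → SignType}
    (hx : ε * n / 4 ≤ sz x) : 1 ≤ sz x := by
  have hn' : (1 : ℝ) ≤ n := by exact_mod_cast hn
  have : (0 : ℝ) < sz x := lt_of_lt_of_le (by positivity) hx
  exact_mod_cast this

lemma sz_le {n : ℕ} (x : Fin n → SignType) : sz x ≤ n := by
  unfold sz
  exact (Finset.card_filter_le _ _).trans (by simp)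

lemma one_le_L {ε : ℝ} (hε : 0 < ε) (hε6 : ε ≤ 1 / 6) : 1 ≤ Real.log (1 / ε) := by
  rw [Real.le_log_iff_exp_le (by positivity)]
  have h1 : Real.exp 1 < 2.7182818286 := Real.exp_one_lt_d9
  have h2 : (6 : ℝ) ≤ 1 / ε := by
    rw [le_div_iff₀ hε]; linarith
  linarith

theorem t_ROW2' (hB : S_BEN) (hD : S_BAD) : S_ROW2 := by
  intro K hK
  refine ⟨1 / (1000000 * K ^ 2), 3, by positivity, by norm_num, ?_⟩
  intro ε n κ ν hn hε hε6 hν hcut x hx s hs1 hs
  have := hν.prob
  set L := Real.log (1 / ε) with hLdef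
  have hL1 : 1 ≤ L := one_le_L hε hε6
  have hn' : (1 : ℝ) ≤ n := by exact_mod_cast hn
  have hn0 : (0 : ℝ) < n := by linarith
  have hsn : 0 < √(n : ℝ) := Real.sqrt_pos.2 hn0
  have hsn2 : √(n : ℝ) * √n = n := Real.mul_self_sqrt hn0.le
  have hK0 : 0 < K := by linarith
  have hKn : 0 < K * √n := by positivity
  have hsR : (1 : ℝ) ≤ s := by exact_mod_cast hs1
  have hs0 : (0 : ℝ) < s := by linarith
  have hm1 : 1 ≤ sz x := one_le_sz hn hε hx
  have hm1' : (1 : ℝ) ≤ sz x := by exact_mod_cast hm1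
  have hmn : (sz x : ℝ) ≤ n := by exact_mod_cast sz_le x
  have hK2 : K ≤ K ^ 2 := by nlinarith
  have hK21 : 1 ≤ K ^ 2 := by nlinarith
  -- choice of the level
  have hx1 : 1 ≤ (s : ℝ) / (4800 * K) := by
    rw [le_div_iff₀ (by positivity)]
    nlinarith [mul_le_mul hK2 hL1 (by norm_num) (by positivity)]
  obtain ⟨κ', hk1, hk2⟩ := exists_nat_pow_near hx1 (y := 2) (by norm_num)
  rw [le_div_iff₀ (by positivity)] at hk1
  rw [div_lt_iff₀ (by positivity), pow_succ] at hk2
  have hκκ : κ ≤ κ' := by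
    have h1 : (2 : ℝ) ^ κ < 2 ^ κ' := by
      refine hcut.2.trans_lt ?_
      by_contra hcon
      push Not at hcon
      have h3 : (2 : ℝ) ^ κ' * 2 * (4800 * K) ≤ 16 * K * L * 2 * (4800 * K) := by
        have : 0 ≤ 2 * (4800 * K) := by positivity
        nlinarith
      nlinarith [hL1, sq_nonneg K]
    exact ((pow_lt_pow_iff_right₀ (by norm_num : (1 : ℝ) < 2)).1 h1).le
  set β' := K * √n / 2 ^ κ' with hβ'
  set u := ∫ a, sm (K * √n / 2 ^ κ) a ∂ν with hu
  set u' := ∫ a, sm β' a ∂ν with hu'
  have hβ'0 : 0 < β' := by positivity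
  -- the bound of the centred terms
  set b : ℝ := 19200 * K ^ 2 * √n / s with hb
  have hb0 : 0 < b := by positivity
  have hβb : 2 * β' ≤ b := by
    rw [hb, hβ', le_div_iff₀ hs0]
    have h2 : (0 : ℝ) < 2 ^ κ' := by positivity
    rw [show 2 * (K * √n / 2 ^ κ') * s = (2 * K * √n * s) / 2 ^ κ' by ring, div_le_iff₀ h2]
    have h3 : (s : ℝ) ≤ 2 ^ κ' * 2 * (4800 * K) := hk2.le
    calc 2 * K * √n * s ≤ 2 * K * √n * (2 ^ κ' * 2 * (4800 * K)) :=
          mul_le_mul_of_nonneg_left h3 (by positivity)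
      _ = 19200 * K ^ 2 * √n * 2 ^ κ' := by ring
  have hfm : Measurable fun a : ℝ => sm β' a - u' := (measurable_sm β').sub_const _
  have hfb : ∀ᵐ a ∂ν, |sm β' a - u'| ≤ b := by
    refine Filter.Eventually.of_forall fun a => ?_
    have h1 := abs_sm_le β' a hβ'0.le
    have h2 := abs_mean_sm_le' hν hβ'0.le
    calc |sm β' a - u'| ≤ |sm β' a| + |u'| := abs_sub _ _
      _ ≤ β' + β' := add_le_add h1 h2
      _ ≤ b := by linarith
  have hf0 : ∫ a, (sm β' a - u') ∂ν = 0 := by
    rw [integral_sub (integrable_sm hν hβ'0.le) (integrable_const _)]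
    simp [hu']
  have hsmI := integrable_sm hν hβ'0.le
  have hsmI2 : Integrable (fun a => sm β' a ^ 2) ν :=
    Integrable.mono' (integrable_id_sq hν) ((measurable_sm β').pow_const 2).aestronglyMeasurable
      (Filter.Eventually.of_forall fun a => by
        rw [Real.norm_eq_abs, abs_of_nonneg (sq_nonneg _)]; exact sm_sq_le β' a)
  have hf2 : ∫ a, (sm β' a - u') ^ 2 ∂ν ≤ 1 := by
    have h1 : ∫ a, (sm β' a - u') ^ 2 ∂ν = ∫ a, sm β' a ^ 2 ∂ν - u' ^ 2 := by
      have h2 : (fun a => (sm β' a - u') ^ 2) =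
          fun a => sm β' a ^ 2 - (2 * u' * sm β' a - u' ^ 2) := by
        funext a; ring
      have h3 : Integrable (fun a => 2 * u' * sm β' a) ν := hsmI.const_mul _
      have h4 : Integrable (fun a => 2 * u' * sm β' a - u' ^ 2) ν := h3.sub (integrable_const _)
      rw [h2, integral_sub hsmI2 h4, integral_sub h3 (integrable_const _), integral_const_mul,
        ← hu']
      simp
      ring
    have h3 : ∫ a, sm β' a ^ 2 ∂ν ≤ 1 := by
      rw [← hν.var]
      exact integral_mono hsmI2 (integrable_id_sq hν) (fun a => sm_sq_le β' a)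
    rw [h1]
    nlinarith [sq_nonneg u']
  have hBen := hB n ν (fun a => sm β' a - u') b hν.prob hfm hb0 hfb hf0 hf2 x (s * √n / 2) hm1
    (by positivity)
  have hBad := hD K L n ν hK (by linarith) hn hν κ'
  -- inclusion
  have hincl : {r : Fin n → ℝ | s * √n < |Yr K L n (K * √n / 2 ^ κ) u x r|} ⊆
      {r | ∃ k, κ' ≤ k ∧ bad K L n k r} ∪
        {r | s * √n / 2 < |∑ j, (x j : ℝ) * (sm β' (r j) - u')|} := by
    intro r hr
    by_cases hg : ∃ k, κ' ≤ k ∧ bad K L n k r
    · exact Or.inl hg
    · right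
      have h1 := det hKn (by linarith : 0 ≤ L) hκκ hg x u u'
      have h2 : s * √n < |Yr K L n (K * √n / 2 ^ κ) u x r| := hr
      have h3 : |u| * sz x ≤ s * √n / 10000 := by
        have h4 := abs_mean_sm_le hν (β := K * √n / 2 ^ κ) (by positivity)
        have h5 : 1 / (K * √n / 2 ^ κ) ≤ 16 * L / √n := by
          rw [one_div_div, div_le_div_iff₀ (by positivity) hsn]
          calc (2 : ℝ) ^ κ * √n ≤ 16 * K * L * √n := mul_le_mul_of_nonneg_right hcut.2 hsn.le
            _ = 16 * L * (K * √n) := by ring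
        calc |u| * sz x ≤ (16 * L / √n) * n :=
              mul_le_mul (h4.trans h5) hmn (by positivity) (by positivity)
          _ = 16 * L * √n := by
              rw [div_mul_eq_mul_div, div_eq_iff hsn.ne']
              calc 16 * L * (n : ℝ) = 16 * L * (√n * √n) := by rw [hsn2]
                _ = 16 * L * √n * √n := by ring
          _ ≤ s * √n / 10000 := by
              have : 16 * L ≤ s / 10000 := by
                have : L ≤ K ^ 2 * L := le_mul_of_one_le_left (by linarith) hK21
                linarith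
              calc 16 * L * √n ≤ s / 10000 * √n := mul_le_mul_of_nonneg_right this hsn.le
                _ = _ := by ring
      have h6 : |u'| * sz x ≤ s * √n / 4800 := by
        have h4 := abs_mean_sm_le hν hβ'0
        have h5 : 1 / β' ≤ s / (4800 * √n) := by
          rw [hβ', one_div_div, div_le_div_iff₀ (by positivity) (by positivity)]
          calc (2 : ℝ) ^ κ' * (4800 * √n) ≤ 2 ^ κ' * (4800 * √n) * K ^ 2 := by
                exact le_mul_of_one_le_right (by positivity) hK21
            _ = (2 ^ κ' * (4800 * K)) * (K * √n) := by ring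
            _ ≤ s * (K * √n) := mul_le_mul_of_nonneg_right hk1 (by positivity)
        calc |u'| * sz x ≤ (s / (4800 * √n)) * n :=
              mul_le_mul (h4.trans h5) hmn (by positivity) (by positivity)
          _ = s * √n / 4800 := by
              rw [div_mul_eq_mul_div, div_eq_div_iff (by positivity) (by norm_num)]
              calc (s : ℝ) * n * 4800 = s * (√n * √n) * 4800 := by rw [hsn2]
                _ = s * √n * (4800 * √n) := by ring
      have h7 : 600 * (K * √n) * (2 ^ κ' + 2 * L) ≤ s * √n * (1 / 8 + 1 / 100) := by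
        have h8 : K * 2 ^ κ' ≤ s / 4800 := by linarith
        have h9 : K * L ≤ s / 160000 := by
          have : K * L ≤ K ^ 2 * L := mul_le_mul_of_nonneg_right hK2 (by linarith)
          linarith
        have h10 : 600 * (K * 2 ^ κ' + 2 * (K * L)) ≤ s * (1 / 8 + 1 / 100) := by linarith
        calc 600 * (K * √n) * (2 ^ κ' + 2 * L) = 600 * (K * 2 ^ κ' + 2 * (K * L)) * √n := by ring
          _ ≤ s * (1 / 8 + 1 / 100) * √n := mul_le_mul_of_nonneg_right h10 hsn.le
          _ = _ := by ring
      have h11 : 0 < s * √(n : ℝ) := by positivity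
      show s * √n / 2 < |∑ j, (x j : ℝ) * (sm β' (r j) - u')|
      rw [add_mul] at h1
      linarith
  have hfin : (rowLaw n ν).real {r | s * √n < |Yr K L n (K * √n / 2 ^ κ) u x r|} ≤
      Real.exp (-(500 * 4 ^ κ')) + 2 * Real.exp (-(s * √n / 2 / (2 * b) *
        Real.log (1 + b * (s * √n / 2) / sz x))) := by
    have : IsProbabilityMeasure (rowLaw n ν) := by unfold rowLaw; infer_instance
    calc _ ≤ _ := measureReal_mono hincl
      _ ≤ _ := measureReal_union_le _ _
      _ ≤ _ := add_le_add hBad hBen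
  refine hfin.trans ?_
  -- estimates of the exponents
  set q : ℝ := (s : ℝ) ^ 2 / K ^ 2 with hq
  have hq0 : 0 < q := by positivity
  have he1 : 5 / 1000000 * q ≤ 500 * 4 ^ κ' := by
    have h1 : (s : ℝ) ^ 2 ≤ (2 ^ κ' * 2 * (4800 * K)) ^ 2 := by
      exact pow_le_pow_left₀ hs0.le hk2.le 2
    have h2 : (4 : ℝ) ^ κ' = 2 ^ κ' * 2 ^ κ' := by rw [← mul_pow]; norm_num
    have h3 : q ≤ 92160000 * 4 ^ κ' := by
      rw [hq, div_le_iff₀ (by positivity), h2]
      calc (s : ℝ) ^ 2 ≤ (2 ^ κ' * 2 * (4800 * K)) ^ 2 := h1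
        _ = _ := by ring
    have : (0 : ℝ) < 4 ^ κ' := by positivity
    linarith
  have he2 : 5 / 1000000 * q ≤ s * √n / 2 / (2 * b) * Real.log (1 + b * (s * √n / 2) / sz x) := by
    have h1 : s * √n / 2 / (2 * b) = q / 76800 := by
      rw [hb, hq]
      field_simp
      ring
    have h2 : b * (s * √n / 2) = 9600 * K ^ 2 * n := by
      rw [hb]
      calc 19200 * K ^ 2 * √n / s * (s * √n / 2) = 9600 * K ^ 2 * (√n * √n) * (s / s) := by ring
        _ = _ := by rw [hsn2, div_self hs0.ne', mul_one]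
    have h3 : 1 ≤ Real.log (1 + b * (s * √n / 2) / sz x) := by
      rw [Real.le_log_iff_exp_le (by positivity)]
      have h4 : Real.exp 1 < 2.7182818286 := Real.exp_one_lt_d9
      have h5 : 9600 ≤ b * (s * √n / 2) / sz x := by
        rw [h2, le_div_iff₀ (by positivity)]
        calc 9600 * (sz x : ℝ) ≤ 9600 * n := mul_le_mul_of_nonneg_left hmn (by norm_num)
          _ ≤ 9600 * n * K ^ 2 := le_mul_of_one_le_right (by positivity) hK21
          _ = _ := by ring
      linarith
    rw [h1]
    have : q / 76800 ≤ q / 76800 * Real.log (1 + b * (s * √n / 2) / sz x) :=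
      le_mul_of_one_le_right (by positivity) h3
    linarith
  have hexp : Real.exp (-(5 / 1000000 * q)) ≤ sz x / n * Real.exp (-(1 / (1000000 * K ^ 2) * s ^ 2))
      := by
    have h1 : Real.exp (-(4 / 1000000 * q)) ≤ sz x / n := by
      have h2 : ε / 4 ≤ sz x / n := by
        rw [le_div_iff₀ hn0]; linarith
      refine le_trans ?_ h2
      have h3 : ε = Real.exp (-L) := by
        rw [hLdef, ← Real.log_inv, one_div, inv_inv, Real.exp_log hε]
      have h4 : L + 2 ≤ 4 / 1000000 * q := by
        have h5 : (160000 * K ^ 2 * L) ^ 2 ≤ (s : ℝ) ^ 2 :=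
          pow_le_pow_left₀ (by positivity) hs.le 2
        have h6 : 25600000000 * (K ^ 2 * L ^ 2) ≤ q := by
          rw [hq, le_div_iff₀ (by positivity)]
          calc 25600000000 * (K ^ 2 * L ^ 2) * K ^ 2 = (160000 * K ^ 2 * L) ^ 2 := by ring
            _ ≤ _ := h5
        have h7 : L ≤ K ^ 2 * L ^ 2 := by
          have h8 : L ≤ L ^ 2 := by nlinarith
          have h9 : L ^ 2 ≤ K ^ 2 * L ^ 2 := le_mul_of_one_le_left (by positivity) hK21
          linarith
        have h10 : 1 ≤ L := hL1
        linarith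
      calc Real.exp (-(4 / 1000000 * q)) ≤ Real.exp (-L + -2) := Real.exp_le_exp.2 (by linarith)
        _ = ε * Real.exp (-2) := by rw [Real.exp_add, ← h3]
        _ ≤ ε * (1 / 4) := by
            refine mul_le_mul_of_nonneg_left ?_ hε.le
            rw [Real.exp_neg, show (2 : ℝ) = 1 + 1 by norm_num, Real.exp_add,
              inv_le_comm₀ (by positivity) (by norm_num)]
            have := Real.exp_one_gt_d9
            nlinarith
        _ = ε / 4 := by ring
    calc Real.exp (-(5 / 1000000 * q)) = Real.exp (-(4 / 1000000 * q)) *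
          Real.exp (-(1 / (1000000 * K ^ 2) * s ^ 2)) := by
          rw [← Real.exp_add]
          congr 1
          rw [hq]
          field_simp
          ring
      _ ≤ _ := mul_le_mul_of_nonneg_right h1 (by positivity)
  calc _ ≤ Real.exp (-(5 / 1000000 * q)) + 2 * Real.exp (-(5 / 1000000 * q)) := by
        refine add_le_add (Real.exp_le_exp.2 (by linarith)) ?_
        exact mul_le_mul_of_nonneg_left (Real.exp_le_exp.2 (by linarith)) (by norm_num)
    _ = 3 * Real.exp (-(5 / 1000000 * q)) := by ring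
    _ ≤ _ := by nlinarith [hexp]

end Pool.Agent.H99.NR.Row2

namespace Pool.Agent.H99.NR

/-- Part ROW2. -/
theorem t_ROW2 (hB : S_BEN) (hD : S_BAD) : S_ROW2 := Row2.t_ROW2' hB hD

end Pool.Agent.H99.NR
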