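import Mathlib

/-!
Crew NR (MP_d89a53_pr): norm regularization of random matrices with i.i.d. entries of mean `0`,
variance `1`, bounded by `K √n`.  Definitions and statements of the parts.
`L = log (1 / ε) ≥ log 6 > 1.79` throughout.
-/

set_option autoImplicit false

open MeasureTheory ProbabilityTheory

noncomputable section

open Classical

namespace Pool.Agent.H99.NR

/-- The law of one entry. -/
structure Law (K : ℝ) (n : ℕ) (ν : Measure ℝ) : Prop where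
  prob : IsProbabilityMeasure ν
  mean : ∫ a, a ∂ν = 0
  var : ∫ a, a ^ 2 ∂ν = 1
  bdd : ∀ᵐ a ∂ν, |a| ≤ K * √n

/-- The law of a row. -/
def rowLaw (n : ℕ) (ν : Measure ℝ) : Measure (Fin n → ℝ) := Measure.pi fun _ => ν

/-- The law of the matrix (independent rows). -/
def matLaw (n : ℕ) (ν : Measure ℝ) : Measure (Fin n → Fin n → ℝ) :=
  Measure.pi fun _ => rowLaw n ν

/-- `a` is of level `k`: `K √n / 2^(k+1) < |a| ≤ K √n / 2^k`. -/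
def inLev (K : ℝ) (n k : ℕ) (a : ℝ) : Prop :=
  K * √n / 2 ^ (k + 1) < |a| ∧ |a| ≤ K * √n / 2 ^ k

/-- Number of the entries of level `k` in the row `r`. -/
def cnt (K : ℝ) (n k : ℕ) (r : Fin n → ℝ) : ℕ :=
  (Finset.univ.filter fun j => inLev K n k (r j)).card

/-- The level `k` is bad in the row `r`. -/
def bad (K L : ℝ) (n k : ℕ) (r : Fin n → ℝ) : Prop :=
  600 * (4 ^ k + L) < (cnt K n k r : ℝ)

/-- The positions of the entries of `r` whose level is bad in `r`. -/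
def exc (K L : ℝ) (n : ℕ) (r : Fin n → ℝ) : Finset (Fin n) :=
  Finset.univ.filter fun j => ∃ k, inLev K n k (r j) ∧ bad K L n k r

/-- The part of `a` of size at most `β`. -/
def sm (β a : ℝ) : ℝ := if |a| ≤ β then a else 0

/-- The absolute value of the part of `a` of size larger than `β`. -/
def lgp (β a : ℝ) : ℝ := if |a| ≤ β then 0 else |a|

/-- The size of the support of a sign vector. -/
def sz {n : ℕ} (x : Fin n → SignType) : ℕ := (Finset.univ.filter fun j => x j ≠ 0).card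

/-- The row sum `Y'` : entries larger than `β` and entries of bad levels are removed, and the
constant `u` (the mean of the small part) is subtracted from every entry. -/
def Yr (K L : ℝ) (n : ℕ) (β u : ℝ) (x : Fin n → SignType) (r : Fin n → ℝ) : ℝ :=
  ∑ j, (x j : ℝ) * ((if j ∈ exc K L n r then 0 else sm β (r j)) - u)

/-- `κ` is a cut-off level for `K`, `L`: the corresponding size `K √n / 2 ^ κ` is between
`√n / (16 L)` and `√n / (8 L)`. -/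
def Cut (K L : ℝ) (κ : ℕ) : Prop := 8 * K * L ≤ 2 ^ κ ∧ (2 : ℝ) ^ κ ≤ 16 * K * L

/-- **RND** (rounding, little Grothendieck; deterministic).
If all sign vectors supported exactly on `R` have `‖B x‖² ≤ M`, then `∑_q ‖B X_q‖² ≤ 4 M` for every
finite family of vectors `X_q` supported on `R` with `∑_q (X_q j)² ≤ 1` for all `j`.
Proof.  Let `γ` be the supremum of `∑_q ‖B X_q‖²` over such families (it is finite:
`∑_q ‖B X_q‖² ≤ n ∑_j ∑_q (X_q j)² ‖B_j‖²`).  For a family and independent signs `g_q` put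
`u = ∑ g_q X_q`, `v` = `u` clipped to `[-1,1]`, `w = u - v`.  `E ‖B u‖² = ∑ ‖B X_q‖²`; `‖B v‖² ≤ M`
(convexity in each coordinate, `v ∈ [-1,1]^R`); `|w_j| ≤ u_j²/4`, `E w_j² ≤ E u_j⁴/16 ≤ 3/16`
(`E u_j⁴ ≤ 3 (∑_q (X_q j)²)²` by induction on the number of signs), so
`E ‖B w‖² ≤ (3/16) γ` (use the family `w(g) · √(16/3) / √(2^r)` indexed by `g`), and by Minkowski
`√γ ≤ √M + √(3/16) √γ`, so `γ ≤ 4 M`. -/
def S_RND : Prop := ∀ (n : ℕ) (B : Fin n → Fin n → ℝ) (R : Finset (Fin n)) (M : ℝ),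
  0 ≤ M → (∀ x : Fin n → SignType, (∀ j, x j ≠ 0 ↔ j ∈ R) →
    ∑ i, (∑ j, B i j * (x j : ℝ)) ^ 2 ≤ M) →
  ∀ (r : ℕ) (X : Fin r → Fin n → ℝ), (∀ q j, j ∉ R → X q j = 0) → (∀ j, ∑ q, X q j ^ 2 ≤ 1) →
    ∑ q, ∑ i, (∑ j, B i j * X q j) ^ 2 ≤ 4 * M

/-- **SEL** (column selection, deterministic, uses `S_RND`).  If all sign vectors supported exactly
on `R` have `‖B x‖² ≤ M`, then after removing at most a quarter of the columns of `R` the norm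
squared is `≤ C M / |R|`.
Proof.  Greedy: take a sequence of unit vectors `x_1, …, x_r` supported on `R` of maximal length
such that `x_q` is supported on `{j : ∑_{p<q} (x_p j)² < 1}` and `‖B x_q‖² > t`, `t = 32 M / |R|`.
Always `∑_q (x_q j)² ≤ 2`, so by `S_RND` (for `x_q/√2`) `r t < 8 M` (or `r = 0`), `r ≤ |R|/4`; take
`J = {j ∈ R : ∑_q (x_q j)² ≥ 1}`, `|J| ≤ ∑_q |x_q|² = r ≤ |R|/4`.  By maximality `‖B z‖² ≤ t |z|²` for `z`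
supported on `R \ J`. -/
def S_SEL : Prop := ∃ C : ℝ, 0 < C ∧ ∀ (n : ℕ) (B : Fin n → Fin n → ℝ) (R : Finset (Fin n)) (M : ℝ),
  0 ≤ M → (∀ x : Fin n → SignType, (∀ j, x j ≠ 0 ↔ j ∈ R) →
    ∑ i, (∑ j, B i j * (x j : ℝ)) ^ 2 ≤ M) →
  ∃ J : Finset (Fin n), J ⊆ R ∧ 4 * J.card ≤ R.card ∧
    ∀ z : Fin n → ℝ, (∀ j, j ∉ R \ J → z j = 0) →
      ∑ i, (∑ j, B i j * z j) ^ 2 ≤ C * (M / R.card) * ∑ j, z j ^ 2

/-- **ITR** (iteration, deterministic, uses `S_SEL`).  Apply `SEL` to `R = U`, then to the removed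
set, and so on, as long as the set has more than `ε n / 4` elements; at most
`1 + log (4/ε) / log 4 ≤ 3 L` stages; the squared norms of the stages (disjoint columns) add up:
`‖B(z₁+z₂)‖² ≤ (a|z₁| + b|z₂|)² ≤ (a²+b²)(|z₁|²+|z₂|²)`.  Prove by induction on `N`:
there is `J ⊆ U` with `|J| ≤ max (ε n / 4) (n / 4^N)` and norm² off `J` at most `N C M`. -/
def S_ITR : Prop := ∃ C : ℝ, 0 < C ∧ ∀ (n : ℕ) (ε : ℝ), 1 ≤ n → 0 < ε → ε ≤ 1 / 6 →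
  ∀ (B : Fin n → Fin n → ℝ) (U : Finset (Fin n)) (M : ℝ), 0 ≤ M →
  (∀ x : Fin n → SignType, (∀ j, x j ≠ 0 → j ∈ U) → ε * n / 4 ≤ sz x →
    ∑ i, (∑ j, B i j * (x j : ℝ)) ^ 2 ≤ M * sz x) →
  ∃ J : Finset (Fin n), J ⊆ U ∧ (J.card : ℝ) ≤ ε * n / 4 ∧
    ∀ z : Fin n → ℝ, (∀ j, j ∉ U \ J → z j = 0) →
      ∑ i, (∑ j, B i j * z j) ^ 2 ≤ C * M * Real.log (1 / ε) * ∑ j, z j ^ 2

/-- **SCH** (Schur test). Cauchy-Schwarz: `(∑_j |B_ij| |z_j|)² ≤ a ∑_j |B_ij| z_j²`. -/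
def S_SCH : Prop := ∀ (n : ℕ) (B : Fin n → Fin n → ℝ) (a b : ℝ), 0 ≤ a → 0 ≤ b →
  (∀ i, ∑ j, |B i j| ≤ a) → (∀ j, ∑ i, |B i j| ≤ b) →
  ∀ z : Fin n → ℝ, ∑ i, (∑ j, B i j * z j) ^ 2 ≤ a * b * ∑ j, z j ^ 2

/-- **DRW** (deterministic).  The sum of the large entries of good levels of a row:
`∑_{k < κ} (K √n / 2^k) · 600 (4^k + L) ≤ 600 K √n (2^κ + 2 L)`.  The number of `j ∉ exc` of level
`k` is at most `600 (4^k + L)` (it is `0` if `k` is bad, else at most `cnt`); an entry with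
`K √n / 2^κ < |a| ≤ K √n` has a level `k < κ`. -/
def S_DRW : Prop := ∀ (K L : ℝ) (n κ : ℕ) (r : Fin n → ℝ), 1 ≤ K → 0 ≤ L →
  (∀ j, |r j| ≤ K * √n) →
  ∑ j, (if j ∈ exc K L n r then 0 else lgp (K * √n / 2 ^ κ) (r j)) ≤
    600 * K * √n * (2 ^ κ + 2 * L)

/-- **JNT** (joint exponential moment of the level counts).  `exp (θ ∑_{k∈S} cnt_k)` is the product
over `j` of `1 + (e^θ - 1) 1[r_j has a level in S]`, and `ν (level k) ≤ 4^(k+1) / n` (Chebyshev). -/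
def S_JNT : Prop := ∀ (K : ℝ) (n : ℕ) (ν : Measure ℝ), 1 ≤ K → 1 ≤ n → Law K n ν →
  ∀ (θ : ℝ) (S : Finset ℕ), 0 ≤ θ →
    Integrable (fun r => Real.exp (θ * ∑ k ∈ S, (cnt K n k r : ℝ))) (rowLaw n ν) ∧
    ∫ r, Real.exp (θ * ∑ k ∈ S, (cnt K n k r : ℝ)) ∂(rowLaw n ν) ≤
      Real.exp ((Real.exp θ - 1) * ∑ k ∈ S, (4 : ℝ) ^ (k + 1))

/-- **BAD** (uses `S_JNT`, `θ = 1`).  `P(bad_k) ≤ exp (-600·4^k + (e-1) 4^(k+1)) ≤ exp (-593·4^k)`;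
union bound over `k ≥ κ`; levels with `4^k ≥ n` are never bad since `cnt ≤ n`. -/
def S_BAD : Prop := ∀ (K L : ℝ) (n : ℕ) (ν : Measure ℝ), 1 ≤ K → 0 ≤ L → 1 ≤ n → Law K n ν →
  ∀ κ : ℕ, (rowLaw n ν).real {r | ∃ k, κ ≤ k ∧ bad K L n k r} ≤ Real.exp (-(500 * 4 ^ κ))

/-- **CNT** (uses `S_JNT`).  Number of all entries of bad levels.  For a row,
`exp (4 |exc|) ≤ ∏_{k<N} (1 + e^(4 cnt_k) 1[bad_k]) ≤ ∏_{k<N} (1 + exp (5 cnt_k - 600(4^k+L)))`,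
`N` with `4^N ≥ n`; expand the product over subsets `S` of `range N` and use `S_JNT` with `θ = 5`
(`e^5 - 1 < 147.5`, so `(e^5-1) 4^(k+1) ≤ 590·4^k`): the row expectation is at most
`∏ (1 + exp (-10·4^k - 600 L)) ≤ exp (exp (-600 L)) = exp (ε^600)`.
Then the rows are independent and Markov: `exp (-ε n + n ε^600)`. -/
def S_CNT : Prop := ∀ (K ε : ℝ) (n : ℕ) (ν : Measure ℝ), 1 ≤ K → 1 ≤ n → 0 < ε → ε ≤ 1 / 6 →
  Law K n ν →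
  (matLaw n ν).real {a | ε * n / 4 < ∑ i, ((exc K (Real.log (1 / ε)) n (a i)).card : ℝ)} ≤
    Real.exp (-(9 / 10 * (ε * n)))

/-- **COL**.  Number of the rows with a large sum of large entries (it will be applied to the
transposed matrix).  `β = K √n / 2^κ ≥ √n / (16 L)`; `∫ lgp β ≤ 1/β ≤ 16 L / √n`; with
`θ = 1/(K √n)`, `exp (θ lgp) - 1 ≤ 2 θ lgp`, so `P(row bad) ≤ exp (-(32+10K) L/K + 32 L/K) ≤ ε^10`;
then `E exp (4·1[bad]) ≤ exp (e⁴ ε^10)`, independence of the rows and Markov. -/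
def S_COL : Prop := ∀ (K ε : ℝ) (n κ : ℕ) (ν : Measure ℝ), 1 ≤ K → 1 ≤ n → 0 < ε → ε ≤ 1 / 6 →
  Law K n ν → Cut K (Real.log (1 / ε)) κ →
  (matLaw n ν).real {a | ε * n / 4 < ((Finset.univ.filter fun i : Fin n =>
      (32 + 10 * K) * Real.log (1 / ε) * √n < ∑ j, lgp (K * √n / 2 ^ κ) (a i j)).card : ℝ)} ≤
    Real.exp (-(9 / 10 * (ε * n)))

/-- **BEN** (Bennett).  For `λ = u/b`: `E exp (λ X) ≤ exp (φ(u)/b²)`, `φ(u) = e^u - 1 - u`, for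
`|X| ≤ b`, `E X = 0`, `E X² ≤ 1` (as `e^y - 1 - y ≤ y² φ(u)/u²` for `y ≤ u`); `φ(u) ≤ (u/2)(e^u-1)`;
choose `e^u - 1 = b y / m`. Independence: product over `j`. -/
def S_BEN : Prop := ∀ (n : ℕ) (ν : Measure ℝ) (f : ℝ → ℝ) (b : ℝ), IsProbabilityMeasure ν →
  Measurable f → 0 < b → (∀ᵐ a ∂ν, |f a| ≤ b) → ∫ a, f a ∂ν = 0 → ∫ a, f a ^ 2 ∂ν ≤ 1 →
  ∀ (x : Fin n → SignType) (y : ℝ), 1 ≤ sz x → 0 < y →
    (rowLaw n ν).real {r | y < |∑ j, (x j : ℝ) * f (r j)|} ≤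
      2 * Real.exp (-(y / (2 * b) * Real.log (1 + b * y / sz x)))

/-- **INA** (a real inequality).  A quarter of `L s log (1 + sρ/(4L))` gives `c s²`:
`L ≥ L' = s/(160000K²)` and `x ↦ x log (1 + a/x)` is increasing, so
`4 L log (1 + sρ/(4L)) ≥ 4 L' log (1 + sρ/(4L')) ≥ 4 L' log 40001`.  The rest,
`(7/4) L s log (1 + sρ/(4L)) ≥ (7/4) L log (1 + ρ/(4L))`, is at least `log ρ - 3`: if `ρ ≥ 16 L²` then
`ρ/(4L) ≥ √ρ` and it is `≥ (7/8) L log ρ ≥ log ρ`; if `ρ ≤ 16 L²` use `log (1+z) ≥ z/(1+z)`: it is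
`≥ (7/4) L ρ/(4L+ρ)`, which is `≥ (7/32) ρ ≥ log ρ - 3` for `ρ ≤ 4L` and
`≥ (7/8) L ≥ log (16 L²) - 3` for `4L ≤ ρ ≤ 16 L²`. -/
def S_INA : Prop := ∀ K : ℝ, 1 ≤ K → ∃ c : ℝ, 0 < c ∧ ∀ L ρ s : ℝ, Real.log 6 ≤ L → 1 ≤ ρ →
  1 ≤ s → s ≤ 160000 * K ^ 2 * L →
  c * s ^ 2 + Real.log ρ - 3 ≤ 2 * L * s * Real.log (1 + s * ρ / (4 * L))

/-- **ROW1** (small `s`; uses `S_BEN`, `S_BAD`, `S_INA`); `m = sz x ≥ ε n / 4`, `ρ = n/m ≤ 4/ε`,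
`u = ∫ sm β dν`, `β = K√n/2^κ`.  Outside `{∃ k ≥ κ bad}` (probability
`≤ exp (-500·4^κ) ≤ exp (-32000 K²L²) ≤ (1/ρ) exp (-c s²)`), `Y'` is the sum of the
`x_j (sm β (r_j) - u)` (a nonzero entry of size `≤ β` has a level `≥ κ`), each bounded by
`2β ≤ √n/(4L) = b`; so by `S_BEN` with `y = s√n` the tail is
`≤ 2 exp (-2 L s log (1 + s ρ/(4L)))`; then `S_INA`. -/
def S_ROW1 : Prop := ∀ K : ℝ, 1 ≤ K → ∃ c C : ℝ, 0 < c ∧ 0 < C ∧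
  ∀ (ε : ℝ) (n κ : ℕ) (ν : Measure ℝ),
  1 ≤ n → 0 < ε → ε ≤ 1 / 6 → Law K n ν → Cut K (Real.log (1 / ε)) κ →
  ∀ (x : Fin n → SignType), ε * n / 4 ≤ sz x → ∀ s : ℕ, 1 ≤ s →
    (s : ℝ) ≤ 160000 * K ^ 2 * Real.log (1 / ε) →
    (rowLaw n ν).real {r | s * √n < |Yr K (Real.log (1 / ε)) n (K * √n / 2 ^ κ)
        (∫ a, sm (K * √n / 2 ^ κ) a ∂ν) x r|} ≤
      C * (sz x / n) * Real.exp (-(c * (s : ℝ) ^ 2))

/-- **ROW2** (large `s`; uses `S_BEN`, `S_BAD`).  Choose `κ'` with `s/(9600K) < 2^κ' ≤ s/(4800K)`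
(so `κ' ≥ κ`, as `2^κ ≤ 16KL`); outside `{∃ k ≥ κ' bad}` (probability
`≤ exp (-500·4^κ') ≤ exp (-500 s²/(9600K)²)`) the entries of good levels `κ ≤ k < κ'` contribute at
most `∑_{k<κ'} (K√n/2^k)·600(4^k+L) ≤ 600 K √n (2^κ' + 2L) ≤ s√n/4`; with `β' = K√n/2^κ'`,
`u' = ∫ sm β'`: `|u'| m ≤ m/β' ≤ s√n/4800` and `|u| m ≤ m/β ≤ 16 L √n ≤ s√n/10000`; and the rest is
`∑ x_j (sm β' (r_j) - u')`, each term bounded by `2β' ≤ b = 19200 K² √n / s`, so `S_BEN` with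
`y = s√n/2` gives `2 exp (-(s²/(76800K²)) log (1 + 9600 K² ρ))`.  The factor
`1/ρ ≥ ε/4 = e^{-L}/4` is absorbed as `s² ≥ (160000 K² L)²`. -/
def S_ROW2 : Prop := ∀ K : ℝ, 1 ≤ K → ∃ c C : ℝ, 0 < c ∧ 0 < C ∧
  ∀ (ε : ℝ) (n κ : ℕ) (ν : Measure ℝ),
  1 ≤ n → 0 < ε → ε ≤ 1 / 6 → Law K n ν → Cut K (Real.log (1 / ε)) κ →
  ∀ (x : Fin n → SignType), ε * n / 4 ≤ sz x → ∀ s : ℕ, 1 ≤ s →
    160000 * K ^ 2 * Real.log (1 / ε) < (s : ℝ) →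
    (rowLaw n ν).real {r | s * √n < |Yr K (Real.log (1 / ε)) n (K * √n / 2 ^ κ)
        (∫ a, sm (K * √n / 2 ^ κ) a ∂ν) x r|} ≤
      C * (sz x / n) * Real.exp (-(c * (s : ℝ) ^ 2))

/-- **ROW** = ROW1 and ROW2 together. -/
def S_ROW : Prop := ∀ K : ℝ, 1 ≤ K → ∃ c C : ℝ, 0 < c ∧ 0 < C ∧
  ∀ (ε : ℝ) (n κ : ℕ) (ν : Measure ℝ),
  1 ≤ n → 0 < ε → ε ≤ 1 / 6 → Law K n ν → Cut K (Real.log (1 / ε)) κ →
  ∀ (x : Fin n → SignType), ε * n / 4 ≤ sz x → ∀ s : ℕ, 1 ≤ s →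
    (rowLaw n ν).real {r | s * √n < |Yr K (Real.log (1 / ε)) n (K * √n / 2 ^ κ)
        (∫ a, sm (K * √n / 2 ^ κ) a ∂ν) x r|} ≤
      C * (sz x / n) * Real.exp (-(c * (s : ℝ) ^ 2))

/-- **MGR** (uses `S_ROW`, `S_BAD`).  Split at `|Y'| ≤ √n`: there
`e^(Y'²/(C₁n)) - 1 ≤ 2Y'²/(C₁n)`, `∫ Y'² 1 ≤ ∫ (∑ x_j (sm β - u))² + n P(∃ k ≥ κ bad) ≤ m + n·(m/n)`
(`exp (-500·4^κ) ≤ exp (-500·64 L²) ≤ ε/4 ≤ m/n`); for `|Y'| > √n` sum over the integers `s ≥ 1` with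
`s√n < |Y'| ≤ (s+1)√n`, `C₁ = 8/c`: `exp ((s+1)²/C₁) ≤ exp (c s²/2)`. -/
def S_MGR : Prop := ∀ K : ℝ, 1 ≤ K → ∃ C₁ C₂ : ℝ, 0 < C₁ ∧ 0 < C₂ ∧
  ∀ (ε : ℝ) (n κ : ℕ) (ν : Measure ℝ),
  1 ≤ n → 0 < ε → ε ≤ 1 / 6 → Law K n ν → Cut K (Real.log (1 / ε)) κ →
  ∀ (x : Fin n → SignType), ε * n / 4 ≤ sz x →
    Integrable (fun r => Real.exp (Yr K (Real.log (1 / ε)) n (K * √n / 2 ^ κ)
        (∫ a, sm (K * √n / 2 ^ κ) a ∂ν) x r ^ 2 / (C₁ * n))) (rowLaw n ν) ∧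
    ∫ r, Real.exp (Yr K (Real.log (1 / ε)) n (K * √n / 2 ^ κ)
        (∫ a, sm (K * √n / 2 ^ κ) a ∂ν) x r ^ 2 / (C₁ * n)) ∂(rowLaw n ν) ≤
      Real.exp (C₂ * (sz x / n))

/-- **UNI** (uses `S_MGR`).  Rows independent, Markov with `C₃ = C₁ (C₂ + 5)`:
`P ≤ exp (-(C₂+5) m L + C₂ m) ≤ exp (-5 m L) ≤ exp (-ε n L/4) exp (-4 m L)`;
`∑_x exp (-4 L sz x) = (1 + 2 ε⁴)^n ≤ exp (ε n / 100)`. -/
def S_UNI : Prop := ∀ K : ℝ, 1 ≤ K → ∃ C₃ : ℝ, 0 < C₃ ∧ ∀ (ε : ℝ) (n κ : ℕ) (ν : Measure ℝ),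
  1 ≤ n → 0 < ε → ε ≤ 1 / 6 → Law K n ν → Cut K (Real.log (1 / ε)) κ →
  (matLaw n ν).real {a | ∃ x : Fin n → SignType, ε * n / 4 ≤ sz x ∧
      C₃ * n * Real.log (1 / ε) * sz x <
        ∑ i, Yr K (Real.log (1 / ε)) n (K * √n / 2 ^ κ)
          (∫ a, sm (K * √n / 2 ^ κ) a ∂ν) x (a i) ^ 2} ≤
    Real.exp (-(2 / 5 * (ε * n)))

/-- **TRP**.  The law of the matrix is invariant under transposition. -/
def S_TRP : Prop := ∀ (n : ℕ) (ν : Measure ℝ), IsProbabilityMeasure ν →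
  (matLaw n ν).map (fun a i j => a j i) = matLaw n ν

/-- The matrix `a` has a set `J` of at most `ε n` columns off which its norm is `≤ b`. -/
def ColGood (n : ℕ) (ε b : ℝ) (a : Fin n → Fin n → ℝ) : Prop :=
  ∃ J : Finset (Fin n), (J.card : ℝ) ≤ ε * n ∧
    ∀ z : Fin n → ℝ, (∀ j, j ∈ J → z j = 0) → ∑ i, (∑ j, a i j * z j) ^ 2 ≤ b ^ 2 * ∑ j, z j ^ 2

/-- **ONE** (assembly of the one-sided theorem from `ITR, SCH, DRW, CNT, COL, UNI, TRP`). -/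
def S_ONE : Prop := ∀ K : ℝ, 1 ≤ K → ∃ C : ℝ, 0 < C ∧ ∀ (ε : ℝ) (n : ℕ) (ν : Measure ℝ),
  1 ≤ n → 0 < ε → ε ≤ 1 / 6 → Law K n ν →
  matLaw n ν {a | ¬ ColGood n ε (C * Real.log (1 / ε) * √n) a} ≤
    ENNReal.ofReal (3 * Real.exp (-(ε * n / 12)))

/-- **FIN** (the main theorem, from `S_ONE`, `S_TRP`).  With probability `≥ 1 - 6 exp (-ε n/12)` both
`A` and its transpose are `ColGood`: `J` columns, `I` rows.  Zeroing `I × J`: the matrix off `I × J` is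
(columns off `J`) + (rows off `I`, columns in `J`), norm `≤ 2 b`. -/
def S_FIN : Prop := ∀ K : ℝ, 1 ≤ K → ∃ C : ℝ, 0 < C ∧ ∀ (n : ℕ) (ε : ℝ), 0 < ε → ε ≤ 1 / 6 →
  ∀ (Ω : Type) (_ : MeasurableSpace Ω) (P : Measure Ω), IsProbabilityMeasure P →
  ∀ A : Fin n → Fin n → Ω → ℝ, (∀ i j, Measurable (A i j)) →
  iIndepFun (fun p : Fin n × Fin n => A p.1 p.2) P →
  (∀ i j i' j', IdentDistrib (A i j) (A i' j') P P) →
  (∀ i j, ∫ ω, A i j ω ∂P = 0) → (∀ i j, ∫ ω, A i j ω ^ 2 ∂P = 1) →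
  (∀ i j, ∀ᵐ ω ∂P, |A i j ω| ≤ K * √n) →
  ENNReal.ofReal (1 - 7 * Real.exp (-(ε * n / 12))) ≤
    P {ω | ∃ I J : Finset (Fin n), (I.card : ℝ) ≤ ε * n ∧ (J.card : ℝ) ≤ ε * n ∧
      ‖Matrix.toEuclideanCLM (𝕜 := ℝ) (Matrix.of fun i j : Fin n =>
        if i ∈ I ∧ j ∈ J then 0 else A i j ω)‖ ≤ C * Real.log (1 / ε) * √n}

end Pool.Agent.H99.NR
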