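import Pool.Agent.H99.NR.Stm
import Pool.Agent.H99.NR.ROW2

/-! Crew NR, part ONE: assembly of the one-sided theorem. -/

set_option autoImplicit false
set_option maxHeartbeats 1000000

open MeasureTheory ProbabilityTheory

noncomputable section

open Classical

namespace Pool.Agent.H99.NR.One

open Pool.Agent.H99.NR Pool.Agent.H99.NR.Row2

lemma abs_sub_sm (β a : ℝ) : |a - sm β a| = lgp β a := by
  unfold sm lgp
  split_ifs with h
  · simp
  · simp

lemma lgp_nonneg (β a : ℝ) : 0 ≤ lgp β a := by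
  unfold lgp; split_ifs <;> positivity

lemma isProb_row {n : ℕ} {ν : Measure ℝ} [IsProbabilityMeasure ν] :
    IsProbabilityMeasure (rowLaw n ν) := by unfold rowLaw; infer_instance

lemma isProb_mat {n : ℕ} {ν : Measure ℝ} [IsProbabilityMeasure ν] :
    IsProbabilityMeasure (matLaw n ν) := by
  have := isProb_row (n := n) (ν := ν)
  unfold matLaw; infer_instance

lemma ae_bdd {K : ℝ} {n : ℕ} {ν : Measure ℝ} (hν : Law K n ν) :
    ∀ᵐ a ∂(matLaw n ν), ∀ i j, |a i j| ≤ K * √n := by
  have := hν.prob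
  have := isProb_row (n := n) (ν := ν)
  rw [ae_all_iff]
  intro i
  have h1 : ∀ᵐ r ∂(rowLaw n ν), ∀ j, |r j| ≤ K * √n := by
    rw [ae_all_iff]
    intro j
    have h2 : MeasurePreserving (Function.eval j) (rowLaw n ν) ν :=
      measurePreserving_eval (fun _ : Fin n => ν) j
    exact h2.quasiMeasurePreserving.ae hν.bdd
  have h3 : MeasurePreserving (Function.eval i) (matLaw n ν) (rowLaw n ν) :=
    measurePreserving_eval (fun _ : Fin n => rowLaw n ν) i
  exact h3.quasiMeasurePreserving.ae h1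

lemma exists_cut {K L : ℝ} (hK : 1 ≤ K) (hL : 1 ≤ L) : ∃ κ, Cut K L κ := by
  have h1 : 1 ≤ 16 * K * L := by nlinarith
  obtain ⟨κ, h2, h3⟩ := exists_nat_pow_near h1 (y := 2) (by norm_num)
  refine ⟨κ, ?_, h2⟩
  rw [pow_succ] at h3
  linarith

lemma le_ofReal {α : Type*} [MeasurableSpace α] {μ : Measure α} [IsFiniteMeasure μ] {s : Set α}
    {x : ℝ} (h : μ.real s ≤ x) : μ s ≤ ENNReal.ofReal x := by
  rw [← ENNReal.ofReal_toReal (measure_ne_top μ s)]
  exact ENNReal.ofReal_le_ofReal h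

/-- The deterministic part. -/
lemma det_one {K L ε CI C3 u : ℝ} {n κ : ℕ} (hK : 1 ≤ K) (hL : 1 ≤ L) (hn : 1 ≤ n) (hε : 0 < ε)
    (hCI : 0 < CI) (hC3 : 0 < C3) (hS : S_SCH) (hW : S_DRW) (hcut : Cut K L κ)
    (a : Fin n → Fin n → ℝ) (hbdd : ∀ i j, |a i j| ≤ K * √n)
    (hu : |u| ≤ 16 * L / √n)
    (h1 : ∑ i, ((exc K L n (a i)).card : ℝ) ≤ ε * n / 4)
    (h2 : ((Finset.univ.filter fun j : Fin n =>
      (32 + 10 * K) * L * √n < ∑ i, lgp (K * √n / 2 ^ κ) (a i j)).card : ℝ) ≤ ε * n / 4)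
    (J2 : Finset (Fin n)) (hJ2 : (J2.card : ℝ) ≤ ε * n / 4)
    (h3 : ∀ z : Fin n → ℝ, (∀ j, j ∈ J2 → z j = 0) →
      ∑ i, (∑ j, ((if j ∈ exc K L n (a i) then 0 else sm (K * √n / 2 ^ κ) (a i j)) - u) * z j) ^ 2 ≤
        CI * (C3 * n * L) * L * ∑ j, z j ^ 2) :
    ∃ J : Finset (Fin n), (J.card : ℝ) ≤ ε * n ∧
      ∀ z : Fin n → ℝ, (∀ j, j ∈ J → z j = 0) → ∑ i, (∑ j, a i j * z j) ^ 2 ≤
        (3 * (CI * C3 + 256 + 600 * K * (16 * K + 2) * (32 + 10 * K))) * L ^ 2 * n *
          ∑ j, z j ^ 2 := by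
  have hn' : (1 : ℝ) ≤ n := by exact_mod_cast hn
  have hn0 : (0 : ℝ) < n := by linarith
  have hsn : 0 < √(n : ℝ) := Real.sqrt_pos.2 hn0
  have hsn2 : √(n : ℝ) * √n = n := Real.mul_self_sqrt hn0.le
  set β := K * √n / 2 ^ κ with hβ
  set JE : Finset (Fin n) := Finset.univ.biUnion fun i => exc K L n (a i) with hJE
  set JD : Finset (Fin n) := Finset.univ.filter fun j : Fin n =>
      (32 + 10 * K) * L * √n < ∑ i, lgp β (a i j) with hJD
  have hJEc : (JE.card : ℝ) ≤ ε * n / 4 := by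
    refine le_trans ?_ h1
    rw [← Nat.cast_sum]
    exact_mod_cast Finset.card_biUnion_le
  refine ⟨JE ∪ JD ∪ J2, ?_, ?_⟩
  · have h4 : ((JE ∪ JD ∪ J2).card : ℝ) ≤ JE.card + JD.card + J2.card := by
      have h5 := Finset.card_union_le (JE ∪ JD) J2
      have h6 := Finset.card_union_le JE JD
      exact_mod_cast h5.trans (by omega)
    have : 0 < ε * n := by positivity
    linarith
  · intro z hz
    have hzE : ∀ i j, j ∈ exc K L n (a i) → z j = 0 := fun i j hj => hz j (by
      simp only [Finset.mem_union]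
      left; left
      rw [hJE, Finset.mem_biUnion]
      exact ⟨i, Finset.mem_univ _, hj⟩)
    set J := JE ∪ JD ∪ J2 with hJ
    set D : Fin n → Fin n → ℝ := fun i j => if j ∈ J then 0 else a i j - sm β (a i j) with hD
    have hsum0 : 0 ≤ ∑ j, z j ^ 2 := Finset.sum_nonneg fun _ _ => sq_nonneg _
    -- P
    have hP := h3 z (fun j hj => hz j (by simp [hJ, hj]))
    -- Q
    have hrow : ∀ i, ∑ j, |D i j| ≤ 600 * K * √n * ((16 * K + 2) * L) := by
      intro i
      have h5 := hW K L n κ (a i) hK (by linarith) (hbdd i)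
      refine le_trans (Finset.sum_le_sum fun j _ => ?_) (h5.trans ?_)
      · rw [hD]
        dsimp only
        by_cases hj : j ∈ J
        · rw [if_pos hj, abs_zero]
          split_ifs
          · exact le_rfl
          · exact lgp_nonneg _ _
        · rw [if_neg hj, if_neg, abs_sub_sm]
          intro h6
          apply hj
          simp only [hJ, Finset.mem_union]
          left; left
          rw [hJE, Finset.mem_biUnion]
          exact ⟨i, Finset.mem_univ _, h6⟩
      · refine mul_le_mul_of_nonneg_left ?_ (by positivity)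
        have := hcut.2
        nlinarith
    have hcol : ∀ j, ∑ i, |D i j| ≤ (32 + 10 * K) * L * √n := by
      intro j
      by_cases hj : j ∈ J
      · have : ∀ i, |D i j| = 0 := fun i => by rw [hD]; simp [hj]
        simp only [this, Finset.sum_const_zero]
        positivity
      · have h6 : ∀ i, |D i j| = lgp β (a i j) := fun i => by
          rw [hD]; simp only [hj, if_false]; exact abs_sub_sm _ _
        simp only [h6]
        by_contra hcon
        push Not at hcon
        apply hj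
        simp only [hJ, Finset.mem_union]
        left; right
        rw [hJD]
        simp only [Finset.mem_filter, Finset.mem_univ, true_and]
        exact hcon
    have hQ := hS n D _ _ (by positivity) (by positivity) hrow hcol z
    -- R
    have hR : ∑ _i : Fin n, (u * ∑ j, z j) ^ 2 ≤ 256 * L ^ 2 * n * ∑ j, z j ^ 2 := by
      have h7 : (∑ j, z j) ^ 2 ≤ n * ∑ j, z j ^ 2 := by
        have := sq_sum_le_card_mul_sum_sq (s := (Finset.univ : Finset (Fin n))) (f := z)
        simpa using this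
      have h8 : u ^ 2 ≤ 256 * L ^ 2 / n := by
        rw [← sq_abs]
        calc |u| ^ 2 ≤ (16 * L / √n) ^ 2 := pow_le_pow_left₀ (abs_nonneg _) hu 2
          _ = 256 * L ^ 2 / n := by
              rw [div_pow, Real.sq_sqrt hn0.le]; ring
      rw [Finset.sum_const, Finset.card_univ, Fintype.card_fin, nsmul_eq_mul, mul_pow]
      calc (n : ℝ) * (u ^ 2 * (∑ j, z j) ^ 2) ≤ n * ((256 * L ^ 2 / n) * (n * ∑ j, z j ^ 2)) := by
            refine mul_le_mul_of_nonneg_left ?_ hn0.le
            exact mul_le_mul h8 h7 (sq_nonneg _) (by positivity)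
        _ = _ := by field_simp
    have hdec : ∀ i, ∑ j, a i j * z j =
        ∑ j, ((if j ∈ exc K L n (a i) then 0 else sm β (a i j)) - u) * z j +
          ∑ j, D i j * z j + u * ∑ j, z j := by
      intro i
      rw [Finset.mul_sum, ← Finset.sum_add_distrib, ← Finset.sum_add_distrib]
      refine Finset.sum_congr rfl fun j _ => ?_
      by_cases hj : j ∈ J
      · rw [hz j hj]; ring
      · have hE : j ∉ exc K L n (a i) := by
          intro h6
          apply hj
          simp only [hJ, Finset.mem_union]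
          left; left
          rw [hJE, Finset.mem_biUnion]
          exact ⟨i, Finset.mem_univ _, h6⟩
        rw [hD]
        simp only [hj, hE, if_false]
        ring
    have h9 : ∀ x y w : ℝ, (x + y + w) ^ 2 ≤ 3 * (x ^ 2 + y ^ 2 + w ^ 2) := by
      intro x y w
      nlinarith [sq_nonneg (x - y), sq_nonneg (x - w), sq_nonneg (y - w)]
    calc ∑ i, (∑ j, a i j * z j) ^ 2
        ≤ ∑ i, 3 * ((∑ j, ((if j ∈ exc K L n (a i) then 0 else sm β (a i j)) - u) * z j) ^ 2 +
            (∑ j, D i j * z j) ^ 2 + (u * ∑ j, z j) ^ 2) := by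
          refine Finset.sum_le_sum fun i _ => ?_
          rw [hdec i]
          exact h9 _ _ _
      _ = 3 * (∑ i, (∑ j, ((if j ∈ exc K L n (a i) then 0 else sm β (a i j)) - u) * z j) ^ 2 +
            ∑ i, (∑ j, D i j * z j) ^ 2 + ∑ _i : Fin n, (u * ∑ j, z j) ^ 2) := by
          rw [← Finset.mul_sum, Finset.sum_add_distrib, Finset.sum_add_distrib]
      _ ≤ 3 * (CI * (C3 * n * L) * L * ∑ j, z j ^ 2 +
            600 * K * √n * ((16 * K + 2) * L) * ((32 + 10 * K) * L * √n) * ∑ j, z j ^ 2 +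
            256 * L ^ 2 * n * ∑ j, z j ^ 2) := by
          refine mul_le_mul_of_nonneg_left ?_ (by norm_num)
          exact add_le_add (add_le_add hP hQ) hR
      _ = 3 * (CI * C3 * L ^ 2 * n + 600 * K * ((16 * K + 2) * (32 + 10 * K)) * L ^ 2 *
            (√n * √n) + 256 * L ^ 2 * n) * ∑ j, z j ^ 2 := by ring
      _ = _ := by rw [hsn2]; ring

theorem t_ONE' (hI : S_ITR) (hS : S_SCH) (hW : S_DRW) (hC : S_CNT) (hCo : S_COL) (hU : S_UNI)
    (hT : S_TRP) : S_ONE := by
  intro K hK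
  obtain ⟨CI, hCI, hI⟩ := hI
  obtain ⟨C3, hC3, hU⟩ := hU K hK
  set Cf : ℝ := 3 * (CI * C3 + 256 + 600 * K * (16 * K + 2) * (32 + 10 * K)) with hCf
  have hCf0 : 0 < Cf := by positivity
  refine ⟨√Cf, Real.sqrt_pos.2 hCf0, ?_⟩
  intro ε n ν hn hε hε6 hν
  have := hν.prob
  have := isProb_mat (n := n) (ν := ν)
  set L := Real.log (1 / ε) with hLdef
  have hL1 : 1 ≤ L := one_le_L hε hε6
  obtain ⟨κ, hcut⟩ := exists_cut hK hL1
  have hn' : (1 : ℝ) ≤ n := by exact_mod_cast hn
  have hn0 : (0 : ℝ) < n := by linarith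
  have hsn : 0 < √(n : ℝ) := Real.sqrt_pos.2 hn0
  have hK0 : 0 < K := by linarith
  set β := K * √n / 2 ^ κ with hβ
  have hβ0 : 0 < β := by positivity
  set u := ∫ a, sm β a ∂ν with hu
  have hub : |u| ≤ 16 * L / √n := by
    refine (abs_mean_sm_le hν hβ0).trans ?_
    rw [hβ, one_div_div, div_le_div_iff₀ (by positivity) hsn]
    calc (2 : ℝ) ^ κ * √n ≤ 16 * K * L * √n := mul_le_mul_of_nonneg_right hcut.2 hsn.le
      _ = 16 * L * (K * √n) := by ring
  -- the exceptional events
  set E1 : Set (Fin n → Fin n → ℝ) := {a | ε * n / 4 < ∑ i, ((exc K L n (a i)).card : ℝ)}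
    with hE1
  set E2 : Set (Fin n → Fin n → ℝ) := {a | ε * n / 4 < ((Finset.univ.filter fun i : Fin n =>
      (32 + 10 * K) * L * √n < ∑ j, lgp β (a i j)).card : ℝ)} with hE2
  set T : (Fin n → Fin n → ℝ) → (Fin n → Fin n → ℝ) := fun a i j => a j i with hTdef
  set E3 : Set (Fin n → Fin n → ℝ) := {a | ∃ x : Fin n → SignType, ε * n / 4 ≤ sz x ∧
      C3 * n * L * sz x < ∑ i, Yr K L n β u x (a i) ^ 2} with hE3
  set N : Set (Fin n → Fin n → ℝ) := {a | ¬ ∀ i j, |a i j| ≤ K * √n} with hN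
  have hNull : matLaw n ν N = 0 := ae_bdd hν
  have hm1 : matLaw n ν E1 ≤ ENNReal.ofReal (Real.exp (-(9 / 10 * (ε * n)))) :=
    le_ofReal (hC K ε n ν hK hn hε hε6 hν)
  have hm2 : matLaw n ν (T ⁻¹' E2) ≤ ENNReal.ofReal (Real.exp (-(9 / 10 * (ε * n)))) := by
    have hTm : Measurable T := by
      rw [hTdef]
      exact measurable_pi_lambda _ fun i => measurable_pi_lambda _ fun j =>
        (measurable_pi_apply i).comp (measurable_pi_apply j)
    calc matLaw n ν (T ⁻¹' E2) ≤ (matLaw n ν).map T E2 := Measure.le_map_apply hTm.aemeasurable _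
      _ = matLaw n ν E2 := by rw [hT n ν hν.prob]
      _ ≤ _ := le_ofReal (hCo K ε n κ ν hK hn hε hε6 hν hcut)
  have hm3 : matLaw n ν E3 ≤ ENNReal.ofReal (Real.exp (-(2 / 5 * (ε * n)))) :=
    le_ofReal (hU ε n κ ν hn hε hε6 hν hcut)
  have hincl : {a | ¬ ColGood n ε (√Cf * L * √n) a} ⊆ ((E1 ∪ T ⁻¹' E2) ∪ E3) ∪ N := by
    intro a ha
    by_contra hcon
    simp only [Set.mem_union, not_or] at hcon
    obtain ⟨⟨⟨hc1, hc2⟩, hc3⟩, hc4⟩ := hcon
    apply ha
    have hc1' : ∑ i, ((exc K L n (a i)).card : ℝ) ≤ ε * n / 4 := not_lt.1 hc1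
    have hc2' : ((Finset.univ.filter fun j : Fin n =>
      (32 + 10 * K) * L * √n < ∑ i, lgp β (a i j)).card : ℝ) ≤ ε * n / 4 := not_lt.1 hc2
    have hc4' : ∀ i j, |a i j| ≤ K * √n := by
      by_contra h; exact hc4 h
    have hc3' : ∀ x : Fin n → SignType, ε * n / 4 ≤ sz x →
        ∑ i, Yr K L n β u x (a i) ^ 2 ≤ C3 * n * L * sz x := by
      intro x hx
      by_contra h
      push Not at h
      exact hc3 ⟨x, hx, h⟩
    obtain ⟨J2, -, hJ2c, hJ2⟩ := hI n ε hn hε hε6
      (fun i j => (if j ∈ exc K L n (a i) then 0 else sm β (a i j)) - u) Finset.univ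
      (C3 * n * L) (by positivity) (by
        intro x _ hx
        refine le_of_eq_of_le ?_ (hc3' x hx)
        refine Finset.sum_congr rfl fun i _ => ?_
        congr 1
        unfold Yr
        exact Finset.sum_congr rfl fun j _ => mul_comm _ _)
    obtain ⟨J, hJc, hJ⟩ := det_one hK hL1 hn hε hCI hC3 hS hW hcut a hc4' hub hc1' hc2' J2 hJ2c
      (fun z hz => by
        have := hJ2 z (fun j hj => hz j (by
          simpa using hj))
        exact this)
    refine ⟨J, hJc, fun z hz => ?_⟩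
    refine (hJ z hz).trans (le_of_eq ?_)
    rw [← hCf, mul_pow, mul_pow, Real.sq_sqrt hCf0.le, Real.sq_sqrt hn0.le]
  calc matLaw n ν {a | ¬ ColGood n ε (√Cf * L * √n) a}
      ≤ matLaw n ν (((E1 ∪ T ⁻¹' E2) ∪ E3) ∪ N) := measure_mono hincl
    _ ≤ ((matLaw n ν E1 + matLaw n ν (T ⁻¹' E2)) + matLaw n ν E3) + matLaw n ν N := by
        refine (measure_union_le _ _).trans (add_le_add_left ?_ _)
        refine (measure_union_le _ _).trans (add_le_add_left ?_ _)
        exact measure_union_le _ _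
    _ ≤ ((ENNReal.ofReal (Real.exp (-(9 / 10 * (ε * n)))) +
          ENNReal.ofReal (Real.exp (-(9 / 10 * (ε * n))))) +
          ENNReal.ofReal (Real.exp (-(2 / 5 * (ε * n))))) + 0 := by
        rw [hNull]
        exact add_le_add_left (add_le_add (add_le_add hm1 hm2) hm3) _
    _ ≤ _ := by
        rw [add_zero, ← ENNReal.ofReal_add (by positivity) (by positivity),
          ← ENNReal.ofReal_add (by positivity) (by positivity)]
        refine ENNReal.ofReal_le_ofReal ?_
        have h1 : Real.exp (-(9 / 10 * (ε * n))) ≤ Real.exp (-(ε * n / 12)) :=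
          Real.exp_le_exp.2 (by nlinarith [mul_pos hε hn0])
        have h2 : Real.exp (-(2 / 5 * (ε * n))) ≤ Real.exp (-(ε * n / 12)) :=
          Real.exp_le_exp.2 (by nlinarith [mul_pos hε hn0])
        linarith

end Pool.Agent.H99.NR.One

namespace Pool.Agent.H99.NR

/-- Part ONE. -/
theorem t_ONE (hI : S_ITR) (hS : S_SCH) (hW : S_DRW) (hC : S_CNT) (hCo : S_COL) (hU : S_UNI)
    (hT : S_TRP) : S_ONE := One.t_ONE' hI hS hW hC hCo hU hT

end Pool.Agent.H99.NR
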